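import Pool.Agent.Run7.h413.DN.Arith
import Pool.Agent.Y638.RF.Xor

set_option autoImplicit false

/-! # Products `u_iᵀ M v_i`, Boolean and over `ZMod 2` -/

namespace Run7.h413.DN.OMv

open Finset Pool.Agent.TH697.Form Pool.Agent.TH697.Row
open Pool.Agent.Y638.RF (Asks)

variable {n c w d : ℕ}

/-- The pairs of vectors. -/
def pairs (n : ℕ) : Finset (Option (Fin n)) := (univ : Finset (Fin n)).map Function.Embedding.some

/-- the arithmetic -/
theorem arith {n c w d l s : ℝ} (hn : 32 ≤ n) (hc : 1 ≤ c) (hw : 1 ≤ w) (hd : 1 ≤ d)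
    (hl0 : 1 ≤ l) (hs : 0 ≤ s)
    (h : n * ((49 / 600 - 0) * n ^ 2 - 1) ≤
      (2 * (d + 2) * (9 * l + d) + (w - 1) * c) * s) :
    n ^ 3 ≤ 700 * (w * c + d * (d + l)) * s := by
  have h0 : 1024 ≤ n ^ 2 := by nlinarith
  have h1 : 2 / 25 * n ^ 2 ≤ (49 / 600 - 0) * n ^ 2 - 1 := by linarith
  have h2 : n * (2 / 25 * n ^ 2) ≤ n * ((49 / 600 - 0) * n ^ 2 - 1) :=
    mul_le_mul_of_nonneg_left h1 (by positivity)
  have hW : (w - 1) * c ≤ 6 * 9 * (w * c) := by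
    have h4 : (w - 1) * c ≤ w * c :=
      mul_le_mul_of_nonneg_right (by linarith) (by positivity)
    have h6 : 0 ≤ w * c := by positivity
    linarith
  have h3 := factor_le (l := l) (p := 9) hd hl0 (by norm_num) hs hW h
  have e1 : n * (2 / 25 * n ^ 2) = 2 / 25 * n ^ 3 := by ring
  rw [e1] at h2
  have h5 : 0 ≤ (w * c + d * (d + l)) * s := by positivity
  nlinarith

theorem bound_of {D : Option (Fin n) → Type} (f : (∀ i, D i) → Bool)
    (hasks : ∀ i : Fin n, Asks (Fin n × Fin n) (n ^ 2) 0 (fun _ => True) f (some i))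
    (hn : 32 ≤ n) (hc : 1 ≤ c) (hw : 1 ≤ w) (hd : 1 ≤ d) {Ω : Type} [Fintype Ω]
    (μ : Ω → ℝ) (hμ : IsProb μ) (s : ℕ) (C : Ω → Net (Option (Fin n)) D w (2 ^ c))
    (hdep : ∀ ω, (C ω).DepthLE d) (hs : ∀ ω, (C ω).cost (pairs n) ≤ s)
    (hF : ApproximatesOn μ (fun ω => (C ω).eval) (fun _ => True) f) :
    (n : ℝ) ^ 3 ≤ 700 * (w * c + d * (d + Real.logb 2 n)) * s := by
  classical
  have hw' : (1 : ℝ) ≤ w := by exact_mod_cast hw
  have hc' : (1 : ℝ) ≤ c := by exact_mod_cast hc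
  have hd' : (1 : ℝ) ≤ d := by exact_mod_cast hd
  have hs0 : (0 : ℝ) ≤ s := Nat.cast_nonneg s
  have hn' : (32 : ℝ) ≤ n := by exact_mod_cast hn
  have hl1 := one_le_logb (n := n) (by omega)
  by_cases hsn : n ^ 3 ≤ s
  · have h1 : (n : ℝ) ^ 3 ≤ s := by exact_mod_cast hsn
    have h2 : (1 : ℝ) ≤ w * c := by nlinarith
    have h3 : (1 : ℝ) ≤ 700 * (w * c + d * (d + Real.logb 2 n)) := by nlinarith
    nlinarith
  have hM : 16 * n ^ 2 * s ^ 2 + 2 ≤ n ^ 9 := by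
    have h1 : s ≤ n ^ 3 := by omega
    have h2 : 16 * n ^ 2 * s ^ 2 ≤ 16 * n ^ 2 * (n ^ 3) ^ 2 :=
      Nat.mul_le_mul_left _ (Nat.pow_le_pow_left h1 2)
    have h3 : 16 * n ^ 2 * (n ^ 3) ^ 2 = 16 * n ^ 8 := by ring
    have h5 : 32 * n ^ 8 ≤ n ^ 9 := by
      calc 32 * n ^ 8 ≤ n * n ^ 8 := Nat.mul_le_mul_right _ hn
        _ = n ^ 9 := by ring
    have h6 : 1 ≤ n ^ 8 := Nat.one_le_pow _ _ (by omega)
    omega
  have h := net_lower μ hμ s C (fun _ => True) f hF Nat.one_le_two_pow hw d hdep (n ^ 2)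
    (n ^ 9) hM 0 (pairs n) hs (T := Fin n × Fin n) (by
      intro a ha
      unfold pairs at ha
      rw [mem_map] at ha
      obtain ⟨i, -, rfl⟩ := ha
      exact hasks i)
  unfold pairs at h
  rw [card_map, card_univ, Fintype.card_fin, Pool.Agent.TH457.Ary.OuMv.card_T] at h
  push_cast at h
  rw [Pool.Agent.TH457.Ary.OuMv.logb_two_pow', Real.logb_pow] at h
  push_cast at h
  exact arith hn' hc' hw' hd' hl1 hs0 h

end Run7.h413.DN.OMv
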