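import Pool.Agent.Run7.h413.DN.Arith
import Pool.Agent.R617.RFE.ET

set_option autoImplicit false

/-! # Triangles of weight zero -/

namespace Run7.h413.DN.ExactTri

open Finset Pool.Agent.TH697.Row
open Pool.Agent.TH697.Form (IsProb)
open Pool.Agent.Y638.RF.ZT

variable {n c w d : ℕ}

/-- The edges between the first two parts. -/
def edges (n : ℕ) : Finset (Fin 3 × Fin n × Fin n) := univ.filter (fun e => e.1 = 0)

theorem edges_eq : edges n = first n := by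
  ext e
  unfold edges first
  rw [mem_filter, mem_map]
  constructor
  · rintro ⟨-, h⟩
    exact ⟨e.2, mem_univ _, Prod.ext h.symm rfl⟩
  · rintro ⟨p, -, rfl⟩
    exact ⟨mem_univ _, rfl⟩

/-- the arithmetic -/
theorem arith {n c w d l s : ℝ} (hn : 2048 ≤ n) (hc : 1 ≤ c) (hw : 1 ≤ w) (hd : 1 ≤ d)
    (hl0 : 1 ≤ l) (hs : 0 ≤ s)
    (h : n ^ 2 * ((49 / 600 - 0) * n - 1) ≤
      (2 * (d + 2) * (8 * l + d) + (w - 1) * (c * l)) * s) :
    n ^ 3 ≤ 600 * (w * c * l + d * (d + l)) * s := by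
  have h1 : 2 / 25 * n ≤ (49 / 600 - 0) * n - 1 := by linarith
  have h2 : n ^ 2 * (2 / 25 * n) ≤ n ^ 2 * ((49 / 600 - 0) * n - 1) :=
    mul_le_mul_of_nonneg_left h1 (by positivity)
  have hW : (w - 1) * (c * l) ≤ 6 * 8 * (w * c * l) := by
    have h4 : (w - 1) * (c * l) ≤ w * (c * l) :=
      mul_le_mul_of_nonneg_right (by linarith) (by positivity)
    have h6 : 0 ≤ w * c * l := by positivity
    linarith
  have h3 := factor_le (l := l) (p := 8) hd hl0 (by norm_num) hs hW h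
  have e1 : n ^ 2 * (2 / 25 * n) = 2 / 25 * n ^ 3 := by ring
  rw [e1] at h2
  linarith

theorem bound (hn : 2048 ≤ n) (hc : 1 ≤ c) (hw : 1 ≤ w) (hd : 1 ≤ d)
    {Ω : Type} [Fintype Ω] (μ : Ω → ℝ) (hμ : IsProb μ) (s : ℕ)
    (C : Ω → Net (Fin 3 × Fin n × Fin n) (fun _ => ℤ) w (n ^ c))
    (hdep : ∀ ω, (C ω).DepthLE d) (hs : ∀ ω, (C ω).cost (edges n) ≤ s)
    (hC : ApproximatesOn μ (fun ω => (C ω).eval) InRange zeroTri) :
    (n : ℝ) ^ 3 ≤ 600 * (w * c * Real.logb 2 n + d * (d + Real.logb 2 n)) * s := by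
  classical
  have hw' : (1 : ℝ) ≤ w := by exact_mod_cast hw
  have hc' : (1 : ℝ) ≤ c := by exact_mod_cast hc
  have hd' : (1 : ℝ) ≤ d := by exact_mod_cast hd
  have hs0 : (0 : ℝ) ≤ s := Nat.cast_nonneg s
  have hl1 := one_le_logb (n := n) (by omega)
  by_cases hsn : n ^ 3 ≤ s
  · have h1 : (n : ℝ) ^ 3 ≤ s := by exact_mod_cast hsn
    have h2 : (1 : ℝ) ≤ w * c := by nlinarith
    have h3 : (1 : ℝ) ≤ 600 * (w * c * Real.logb 2 n + d * (d + Real.logb 2 n)) := by nlinarith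
    nlinarith
  have hM : 16 * n * s ^ 2 + 2 ≤ n ^ 8 := by
    have h1 : s ≤ n ^ 3 := by omega
    have h2 : 16 * n * s ^ 2 ≤ 16 * n * (n ^ 3) ^ 2 :=
      Nat.mul_le_mul_left _ (Nat.pow_le_pow_left h1 2)
    have h3 : 16 * n * (n ^ 3) ^ 2 = 16 * n ^ 7 := by ring
    have h5 : 2048 * n ^ 7 ≤ n ^ 8 := by
      calc 2048 * n ^ 7 ≤ n * n ^ 7 := Nat.mul_le_mul_right _ hn
        _ = n ^ 8 := by ring
    have h6 : 1 ≤ n ^ 7 := Nat.one_le_pow _ _ (by omega)
    omega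
  have h := net_lower (D := fun _ : Fin 3 × Fin n × Fin n => ℤ) μ hμ s C InRange zeroTri hC
    (Nat.one_le_pow _ _ (by omega)) hw d hdep n (n ^ 8) hM 0 (edges n) hs (T := Fin n) (by
      rw [edges_eq]
      exact asks_first)
  rw [edges_eq, card_first, Fintype.card_fin] at h
  push_cast at h
  simp only [Real.logb_pow] at h
  push_cast at h
  exact arith (by exact_mod_cast hn) hc' hw' hd' hl1 hs0 h

end Run7.h413.DN.ExactTri
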