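import Pool.Agent.Run7.h413.DN.Arith
import Pool.Agent.Y638.RF.MinPlus

set_option autoImplicit false

/-! # Shortest paths of length two -/

namespace Run7.h413.DN.MinPlus

open Finset Pool.Agent.TH697.Form Pool.Agent.TH697.Row Pool.Agent.TH697.Form.MinPlus
open Pool.Agent.TH457.Ary.MinPlus Pool.Agent.Y638.RF.MinPlus

variable {n c w d : ℕ}

/-- The rows. -/
def rows (n : ℕ) : Finset (Option (Fin n)) :=
  (univ : Finset (Fin n)).map Function.Embedding.some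

/-- the arithmetic -/
theorem arith {n b c w d l s : ℝ} (hn : 16 ≤ n) (hb : 4 ≤ b) (hc : 1 ≤ c) (hw : 1 ≤ w)
    (hd : 1 ≤ d) (hl0 : 1 ≤ l) (hl : l ≤ 5 / 4 * b) (hs : 0 ≤ s)
    (h : n * ((49 / 600 - 0) * (n ^ 2 * b) - 1) ≤
      (2 * (d + 2) * (11 * l + d) + (w - 1) * (c * l)) * s) :
    n ^ 3 * l ≤ 1100 * (w * c * l + d * (d + l)) * s := by
  have h0 : 256 ≤ n ^ 2 := by nlinarith
  have h00 : 256 * b ≤ n ^ 2 * b := mul_le_mul_of_nonneg_right h0 (by linarith)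
  have h1 : 2 / 25 * (n ^ 2 * b) ≤ (49 / 600 - 0) * (n ^ 2 * b) - 1 := by linarith
  have h2 : n * (2 / 25 * (n ^ 2 * b)) ≤ n * ((49 / 600 - 0) * (n ^ 2 * b) - 1) :=
    mul_le_mul_of_nonneg_left h1 (by linarith)
  have hW : (w - 1) * (c * l) ≤ 6 * 11 * (w * c * l) := by
    have h4 : (w - 1) * (c * l) ≤ w * (c * l) :=
      mul_le_mul_of_nonneg_right (by linarith) (by positivity)
    have h6 : 0 ≤ w * c * l := by positivity
    linarith
  have h3 := factor_le (l := l) (p := 11) hd hl0 (by norm_num) hs hW h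
  have h4 : n ^ 3 * l ≤ 125 / 8 * (n * (2 / 25 * (n ^ 2 * b))) := by
    have h5 : n ^ 3 * l ≤ n ^ 3 * (5 / 4 * b) := mul_le_mul_of_nonneg_left hl (by positivity)
    have e1 : 125 / 8 * (n * (2 / 25 * (n ^ 2 * b))) = n ^ 3 * (5 / 4 * b) := by ring
    rw [e1]
    exact h5
  have h5 : 0 ≤ (w * c * l + d * (d + l)) * s := by positivity
  nlinarith

theorem bound (hn : 16 ≤ n) (hc : 1 ≤ c) (hw : 1 ≤ w) (hd : 1 ≤ d)
    {Ω : Type} [Fintype Ω] (μ : Ω → ℝ) (hμ : IsProb μ) (s : ℕ)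
    (C : Ω → Run7.h413.DN.Net (Option (Fin n)) (Item n) w (n ^ c))
    (hdep : ∀ ω, (C ω).DepthLE d) (hs : ∀ ω, (C ω).cost (rows n) ≤ s)
    (hF : ApproximatesOn μ (fun ω => (C ω).eval) (InRange n (n + 1)) (shortcut n)) :
    (n : ℝ) ^ 3 * Real.logb 2 n ≤
      1100 * (w * c * Real.logb 2 n + d * (d + Real.logb 2 n)) * s := by
  classical
  have hw' : (1 : ℝ) ≤ w := by exact_mod_cast hw
  have hc' : (1 : ℝ) ≤ c := by exact_mod_cast hc
  have hd' : (1 : ℝ) ≤ d := by exact_mod_cast hd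
  have hs0 : (0 : ℝ) ≤ s := Nat.cast_nonneg s
  have hl1 := one_le_logb (n := n) (by omega)
  by_cases hsn : n ^ 3 ≤ s
  · have h1 : (n : ℝ) ^ 3 ≤ s := by exact_mod_cast hsn
    have h2 : (1 : ℝ) ≤ w * c := by nlinarith
    have h3 : Real.logb 2 n ≤
        1100 * (w * c * Real.logb 2 n + d * (d + Real.logb 2 n)) := by nlinarith
    calc (n : ℝ) ^ 3 * Real.logb 2 n ≤ s * Real.logb 2 n :=
          mul_le_mul_of_nonneg_right h1 (by linarith)
      _ = Real.logb 2 n * s := mul_comm _ _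
      _ ≤ _ := mul_le_mul_of_nonneg_right h3 hs0
  obtain ⟨b, hb⟩ : ∃ b, b = Nat.log 2 n := ⟨_, rfl⟩
  have hb4 : 4 ≤ b := by
    have := Nat.log_mono_right (b := 2) hn
    rw [hb]
    rwa [show Nat.log 2 16 = 4 by decide +kernel] at this
  have hpow : 2 ^ b ≤ n := by
    rw [hb]
    exact Nat.pow_log_le_self 2 (by omega)
  have hpow2 : n < 2 ^ (b + 1) := by
    have := Nat.lt_pow_succ_log_self (b := 2) (by norm_num) n
    rw [hb]
    exact this
  have hM : 16 * n ^ 3 * s ^ 2 + 2 ≤ n ^ 11 := by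
    have h1 : s ≤ n ^ 3 := by omega
    have h2 : 16 * n ^ 3 * s ^ 2 ≤ 16 * n ^ 3 * (n ^ 3) ^ 2 :=
      Nat.mul_le_mul_left _ (Nat.pow_le_pow_left h1 2)
    have h3 : 16 * n ^ 3 * (n ^ 3) ^ 2 = 16 * n ^ 9 := by ring
    have h5 : 256 * n ^ 9 ≤ n ^ 11 := by
      calc 256 * n ^ 9 ≤ n ^ 2 * n ^ 9 := Nat.mul_le_mul_right _ (by nlinarith)
        _ = n ^ 11 := by ring
    have h6 : 1 ≤ n ^ 9 := Nat.one_le_pow _ _ (by omega)
    omega
  have h := net_lower μ hμ s C (InRange n (2 ^ b + 1)) (shortcut n)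
    (approx_mono μ _ _ _ _ (fun x hx => inRange_mono (by omega) x hx) hF)
    (Nat.one_le_pow _ _ (by omega)) hw d hdep (n ^ 3) (n ^ 11) hM 0 (rows n) hs
    (T := Fin n × Fin n × Fin b) (by
      intro a ha
      unfold rows at ha
      rw [mem_map] at ha
      obtain ⟨i, -, rfl⟩ := ha
      exact asks hpow i)
  unfold rows at h
  rw [card_map, card_univ, Fintype.card_fin, card_T] at h
  push_cast at h
  simp only [Real.logb_pow] at h
  push_cast at h
  refine arith (by exact_mod_cast hn) (by exact_mod_cast hb4) hc' hw' hd' hl1 ?_ hs0 h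
  have h9 := logb_q (c := 1) (by omega) hb4 hpow2
  simpa using h9

end Run7.h413.DN.MinPlus
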