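import Pool.Agent.Run7.h413.DN.Arith
import Pool.Agent.Y638.RF.ZeroSum

set_option autoImplicit false

/-! # 3SUM -/

namespace Run7.h413.DN.ZeroSum

open Finset Pool.Agent.TH697.Form Pool.Agent.TH697.Row Pool.Agent.TH697.Form.ThreeSum
open Pool.Agent.TH457.Ary.ZeroSum Pool.Agent.TH457.Ary.ThreeSum Pool.Agent.Y638.RF

variable {n c w d : ℕ}

/-- The first `n` numbers. -/
def numbers (n : ℕ) : Finset (Option (Fin n)) :=
  (univ : Finset (Fin n)).map Function.Embedding.some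

/-- the arithmetic -/
theorem arith {n g c w d N L l s : ℝ} (hn : 1000 ≤ n) (hg : 8 ≤ g) (hc : 1 ≤ c) (hw : 1 ≤ w)
    (hd : 1 ≤ d) (hN : n * g / 7 ≤ N) (hgl : g ≤ l) (hl : l ≤ 9 / 8 * g) (hL : L ≤ 4 / 3 * c * g)
    (hs : 0 ≤ s)
    (h : n * ((49 / 600 - 0) * N - 1) ≤ (2 * (d + 2) * (7 * l + d) + (w - 1) * L) * s) :
    n ^ 2 * l ≤ 4300 * (w * c * l + d * (d + l)) * s := by
  have h0 : 1000 * g ≤ n * g := mul_le_mul_of_nonneg_right hn (by linarith)
  have h1 : n * g / 90 ≤ (49 / 600 - 0) * N - 1 := by linarith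
  have h2 : n * (n * g / 90) ≤ n * ((49 / 600 - 0) * N - 1) :=
    mul_le_mul_of_nonneg_left h1 (by linarith)
  have hW : (w - 1) * L ≤ 6 * 7 * (w * c * l) := by
    have h3 : (w - 1) * L ≤ (w - 1) * (4 / 3 * c * g) := mul_le_mul_of_nonneg_left hL (by linarith)
    have h4 : (w - 1) * (4 / 3 * c * g) ≤ w * (4 / 3 * c * g) :=
      mul_le_mul_of_nonneg_right (by linarith) (by positivity)
    have h5 : w * (4 / 3 * c * g) ≤ w * (4 / 3 * c * l) := by
      apply mul_le_mul_of_nonneg_left _ (by linarith)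
      apply mul_le_mul_of_nonneg_left hgl (by linarith)
    have h6 : 0 ≤ w * c * l := by
      have : 0 ≤ l := by linarith
      positivity
    linarith
  have h3 := factor_le (l := l) (p := 7) hd (by linarith) (by norm_num) hs hW h
  have h4 : n ^ 2 * l ≤ 102 * (n * (n * g / 90)) := by
    have h5 : n ^ 2 * l ≤ n ^ 2 * (9 / 8 * g) := mul_le_mul_of_nonneg_left hl (by positivity)
    have h6 : 0 ≤ n ^ 2 * g := by positivity
    nlinarith
  have h5 : 0 ≤ (w * c * l + d * (d + l)) * s := by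
    have : 0 ≤ l := by linarith
    positivity
  nlinarith

theorem bound (hn : 1000 ≤ n) (hc : 1 ≤ c) (hw : 1 ≤ w) (hd : 1 ≤ d)
    {Ω : Type} [Fintype Ω] (μ : Ω → ℝ) (hμ : IsProb μ) (s : ℕ)
    (C : Ω → Run7.h413.DN.Net (Option (Fin n)) (Item n n) w ((2 * n) ^ c))
    (hdep : ∀ ω, (C ω).DepthLE d) (hs : ∀ ω, (C ω).cost (numbers n) ≤ s)
    (hF : ApproximatesOn μ (fun ω => (C ω).eval) (Valid n n) (zeroSum n)) :
    (n : ℝ) ^ 2 * Real.logb 2 n ≤
      4300 * (w * c * Real.logb 2 n + d * (d + Real.logb 2 n)) * s := by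
  classical
  have hw' : (1 : ℝ) ≤ w := by exact_mod_cast hw
  have hc' : (1 : ℝ) ≤ c := by exact_mod_cast hc
  have hd' : (1 : ℝ) ≤ d := by exact_mod_cast hd
  have hs0 : (0 : ℝ) ≤ s := Nat.cast_nonneg s
  obtain ⟨b, hb, hL, hb2⟩ := params (n := n) (by omega)
  have hl1 := one_le_logb (n := n) (by omega)
  by_cases hsn : n ^ 2 ≤ s
  · have h1 : (n : ℝ) ^ 2 ≤ s := by exact_mod_cast hsn
    have h2 : (1 : ℝ) ≤ w * c := by nlinarith
    have h3 : Real.logb 2 n ≤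
        4300 * (w * c * Real.logb 2 n + d * (d + Real.logb 2 n)) := by nlinarith
    calc (n : ℝ) ^ 2 * Real.logb 2 n ≤ s * Real.logb 2 n :=
          mul_le_mul_of_nonneg_right h1 (by linarith)
      _ = Real.logb 2 n * s := mul_comm _ _
      _ ≤ _ := mul_le_mul_of_nonneg_right h3 hs0
  have hM : 16 * n ^ 2 * s ^ 2 + 2 ≤ n ^ 7 := by
    have h1 : s ≤ n ^ 2 := by omega
    have h2 : 16 * n ^ 2 * s ^ 2 ≤ 16 * n ^ 2 * (n ^ 2) ^ 2 :=
      Nat.mul_le_mul_left _ (Nat.pow_le_pow_left h1 2)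
    have h3 : 16 * n ^ 2 * (n ^ 2) ^ 2 = 16 * n ^ 6 := by ring
    have h5 : 1000 * n ^ 6 ≤ n ^ 7 := by
      calc 1000 * n ^ 6 ≤ n * n ^ 6 := Nat.mul_le_mul_right _ hn
        _ = n ^ 7 := by ring
    have h6 : 1 ≤ n ^ 6 := Nat.one_le_pow _ _ (by omega)
    omega
  have h := net_lower μ hμ s C (Valid n n) (zeroSum n) hF
    (Nat.one_le_pow _ _ (by omega)) hw d hdep (n ^ 2) (n ^ 7) hM 0 (numbers n) hs
    (T := Fin (n / 2) × Fin b) (by
      intro a ha
      unfold numbers at ha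
      rw [mem_map] at ha
      obtain ⟨i, -, rfl⟩ := ha
      exact Pool.Agent.Y638.RF.ZeroSum.asks hb (by omega) i)
  unfold numbers at h
  rw [card_map, card_univ, Fintype.card_fin, Nat.cast_pow n 7] at h
  rw [Real.logb_pow] at h
  push_cast at h
  refine arith (L := Real.logb 2 (((2 * n) ^ c : ℕ) : ℝ))
    (g := Nat.log 2 n) (N := ((Fintype.card (Fin (n / 2) × Fin b) : ℕ) : ℝ))
    (by exact_mod_cast hn) (by exact_mod_cast hL) hc' hw' hd' (card_T (by omega) hb2)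
    (natLog_le (by omega)) ?_ (logb_q (by omega) hL) hs0 ?_
  · have h1 := logb_n (n := n) (by omega)
    have hL' : (8 : ℝ) ≤ Nat.log 2 n := by exact_mod_cast hL
    linarith
  · push_cast
    exact h

end Run7.h413.DN.ZeroSum
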