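import Pool.Agent.Run7.h413.DN.Arith
import Pool.Agent.Y638.RF.Tri

set_option autoImplicit false

/-! # Triangles -/

namespace Run7.h413.DN.Tri

open Finset Pool.Agent.TH697.Form Pool.Agent.TH697.Row
open Pool.Agent.TH457.Ary.Tri
open Pool.Agent.TH457.Ary.Sat (exists_k)
open Pool.Agent.Y638.RF Pool.Agent.Y638.RF.Tri

variable {m c w d : ℕ}

/-- the arithmetic -/
theorem arith {m k c w d N l s : ℝ} (hm : 1000 ≤ m) (hk : 4 ≤ k) (hc : 1 ≤ c) (hw : 1 ≤ w)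
    (hd : 1 ≤ d) (hN : m * k / 2 ≤ N) (hl0 : 1 ≤ l) (hl : l ≤ 5 / 2 * k) (hs : 0 ≤ s)
    (h : m * ((49 / 600 - 0) * N - 1) ≤
      (2 * (d + 2) * (7 * l + d) + (w - 1) * (c * l)) * s) :
    m ^ 2 * l ≤ 2700 * (w * c * l + d * (d + l)) * s := by
  have h0 : 1000 * k ≤ m * k := mul_le_mul_of_nonneg_right hm (by linarith)
  have h1 : m * k / 25 ≤ (49 / 600 - 0) * N - 1 := by linarith
  have h2 : m * (m * k / 25) ≤ m * ((49 / 600 - 0) * N - 1) :=
    mul_le_mul_of_nonneg_left h1 (by linarith)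
  have hW : (w - 1) * (c * l) ≤ 6 * 7 * (w * c * l) := by
    have h4 : (w - 1) * (c * l) ≤ w * (c * l) :=
      mul_le_mul_of_nonneg_right (by linarith) (by positivity)
    have h6 : 0 ≤ w * c * l := by positivity
    linarith
  have h3 := factor_le (l := l) (p := 7) hd hl0 (by norm_num) hs hW h
  have h4 : m ^ 2 * l ≤ 125 / 2 * (m * (m * k / 25)) := by
    have h5 : m ^ 2 * l ≤ m ^ 2 * (5 / 2 * k) := mul_le_mul_of_nonneg_left hl (by positivity)
    have e1 : 125 / 2 * (m * (m * k / 25)) = m ^ 2 * (5 / 2 * k) := by ring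
    rw [e1]
    exact h5
  have h5 : 0 ≤ (w * c * l + d * (d + l)) * s := by positivity
  nlinarith

theorem bound (hm : 1000 ≤ m) (hc : 1 ≤ c) (hw : 1 ≤ w) (hd : 1 ≤ d)
    {Ω : Type} [Fintype Ω] (μ : Ω → ℝ) (hμ : IsProb μ) (s : ℕ)
    (C : Ω → Run7.h413.DN.Net (Fin m) (fun _ => Edge (2 * m)) w (m ^ c))
    (hdep : ∀ ω, (C ω).DepthLE d) (hs : ∀ ω, (C ω).cost univ ≤ s)
    (hC : ApproximatesOn μ (fun ω => (C ω).eval) Simple triangle) :
    (m : ℝ) ^ 2 * Real.logb 2 m ≤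
      2700 * (w * c * Real.logb 2 m + d * (d + Real.logb 2 m)) * s := by
  classical
  have hw' : (1 : ℝ) ≤ w := by exact_mod_cast hw
  have hc' : (1 : ℝ) ≤ c := by exact_mod_cast hc
  have hd' : (1 : ℝ) ≤ d := by exact_mod_cast hd
  have hs0 : (0 : ℝ) ≤ s := Nat.cast_nonneg s
  have hl1 := one_le_logb (n := m) (by omega)
  by_cases hsm : m ^ 2 ≤ s
  · have h1 : (m : ℝ) ^ 2 ≤ s := by exact_mod_cast hsm
    have h2 : (1 : ℝ) ≤ w * c := by nlinarith
    have h3 : Real.logb 2 m ≤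
        2700 * (w * c * Real.logb 2 m + d * (d + Real.logb 2 m)) := by nlinarith
    calc (m : ℝ) ^ 2 * Real.logb 2 m ≤ s * Real.logb 2 m :=
          mul_le_mul_of_nonneg_right h1 (by linarith)
      _ = Real.logb 2 m * s := mul_comm _ _
      _ ≤ _ := mul_le_mul_of_nonneg_right h3 hs0
  obtain ⟨k, hk, hk1, hk2⟩ := exists_k (m := m) (by omega)
  have hM : 16 * (4 * m ^ 2) * s ^ 2 + 2 ≤ m ^ 7 := by
    have h1 : s ≤ m ^ 2 := by omega
    have h2 : 16 * (4 * m ^ 2) * s ^ 2 ≤ 16 * (4 * m ^ 2) * (m ^ 2) ^ 2 :=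
      Nat.mul_le_mul_left _ (Nat.pow_le_pow_left h1 2)
    have h3 : 16 * (4 * m ^ 2) * (m ^ 2) ^ 2 = 64 * m ^ 6 := by ring
    have h5 : 1000 * m ^ 6 ≤ m ^ 7 := by
      calc 1000 * m ^ 6 ≤ m * m ^ 6 := Nat.mul_le_mul_right _ hm
        _ = m ^ 7 := by ring
    have h6 : 1 ≤ m ^ 6 := Nat.one_le_pow _ _ (by omega)
    omega
  have h := net_lower (D := fun _ : Fin m => Edge (2 * m)) μ hμ s C Simple triangle hC
    (Nat.one_le_pow _ _ (by omega)) hw d hdep (4 * m ^ 2) (m ^ 7) hM 0 univ hs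
    (T := Fin (M m k) × Fin k) (fun p _ => asks (by omega) hk1 p)
  rw [card_univ (α := Fin m), Fintype.card_fin, Nat.cast_pow m 7, Nat.cast_pow m c,
    Real.logb_pow, Real.logb_pow] at h
  refine arith (N := ((Fintype.card (Fin (M m k) × Fin k) : ℕ) : ℝ)) (by exact_mod_cast hm)
    (by exact_mod_cast hk) hc' hw' hd' (card_T (by omega) hk1)
    hl1 (logb_m hk (by omega) hk2) hs0 ?_
  push_cast at h ⊢
  exact h

end Run7.h413.DN.Tri
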