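import Pool.Agent.Run7.h413.DN.Lower

set_option autoImplicit false

/-! # Arithmetic for the applications -/

namespace Run7.h413.DN

/-- The factor of the lower bound: `M = n ^ p`. -/
theorem factor_le {l d p W V s x : ℝ} (hd : 1 ≤ d) (hl : 1 ≤ l) (hp : 1 ≤ p) (hs : 0 ≤ s)
    (hW : W ≤ 6 * p * V)
    (h : x ≤ (2 * (d + 2) * (p * l + d) + W) * s) :
    x ≤ 6 * p * (V + d * (d + l)) * s := by
  refine h.trans (mul_le_mul_of_nonneg_right ?_ hs)
  have h1 : 2 * (d + 2) ≤ 6 * d := by linarith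
  have h2 : p * l + d ≤ p * (l + d) := by nlinarith
  have h3 : 2 * (d + 2) * (p * l + d) ≤ 6 * d * (p * (l + d)) :=
    mul_le_mul h1 h2 (by nlinarith) (by linarith)
  nlinarith

theorem one_le_logb {n : ℕ} (hn : 2 ≤ n) : (1 : ℝ) ≤ Real.logb 2 n := by
  rw [Real.le_logb_iff_rpow_le (by norm_num) (by exact_mod_cast (by omega : 0 < n)), Real.rpow_one]
  exact_mod_cast hn

theorem natLog_le {n : ℕ} (hn : 1 ≤ n) : (Nat.log 2 n : ℝ) ≤ Real.logb 2 n := by
  have h1 : 2 ^ Nat.log 2 n ≤ n := Nat.pow_log_le_self 2 (by omega)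
  rw [Real.le_logb_iff_rpow_le (by norm_num) (by exact_mod_cast hn)]
  rw [Real.rpow_natCast]
  exact_mod_cast h1

end Run7.h413.DN
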