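import Pool.Agent.Run7.h413.DN.Defs
import Pool.Agent.N452.TF.Core

set_option autoImplicit false

/-! # Few subfunctions of networks whose gates share real values -/

namespace Run7.h413.DN

open Finset MvPolynomial
open Pool.Agent.N452.TF (Leaf ovr ovr_of_mem ovr_of_not)

variable {ι : Type} {D : ι → Type} {w q : ℕ}

theorem Gate.eval_congr {N : Type} [DecidableEq N] (g : Gate ι D w q N) (x : ∀ i, D i)
    {v v' : N → ℝ} (h : ∀ b ∈ g.inputs, v b = v' b) : g.eval x v = g.eval x v' := by
  cases g with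
  | leaf L => rfl
  | lin S a c =>
    simp only [Gate.eval]
    congr 1
    exact sum_congr rfl fun b hb => by rw [h b hb]
  | mul a b =>
    simp only [Gate.eval]
    rw [h a (by simp [Gate.inputs]), h b (by simp [Gate.inputs])]
  | max S =>
    simp only [Gate.eval]
    by_cases hS : S.Nonempty
    · rw [dif_pos hS, dif_pos hS]
      exact sup'_congr hS rfl fun b hb => h b hb
    · rw [dif_neg hS, dif_neg hS]
  | sym S k =>
    simp only [Gate.eval]
    congr 2
    exact filter_congr fun b hb => by rw [h b hb]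

namespace Net

theorem val_eq (C : Net ι D w q) (x : ∀ i, D i) (a : C.Node) :
    C.val x a = (C.gate a).eval x (C.val x) := by
  rw [val]
  exact Gate.eval_congr _ _ fun b hb => dif_pos (C.lt a b hb)

/-- A leaf which does not see the item `i`. -/
theorem leaf_update [DecidableEq ι] (L : Leaf ι D w q ℝ) (i : ι) (h : ¬ L.Sees {i}) (e : D i)
    (z : ∀ i, D i) : L.val (Function.update z i e) = L.val z := by
  have e1 : Function.update z i e = ovr {i} (Function.update z i e) z := by
    funext a
    by_cases ha : a ∈ ({i} : Set ι)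
    · rw [ovr_of_mem ha]
    · rw [ovr_of_not ha]
      exact Function.update_of_ne ha _ _
  rw [e1]
  exact L.val_ovr {i} h _ _

/-- Nodes which do not depend on an item. -/
theorem val_of_not_dep [DecidableEq ι] (C : Net ι D w q) (i : ι) (e : D i) (z : ∀ i, D i) :
    ∀ (k : ℕ) (a : C.Node), C.lev a < k → ¬ C.Dep i a →
      C.val (Function.update z i e) a = C.val z a
  | 0, a, h, _ => by omega
  | k + 1, a, h, ha => by
      have h1 : ∀ b ∈ (C.gate a).inputs, C.val (Function.update z i e) b = C.val z b := fun b hb =>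
        val_of_not_dep C i e z k b (by have := C.lt a b hb; omega) fun hd => ha (.wire hb hd)
      rw [val_eq, val_eq, Gate.eval_congr _ _ h1]
      cases hg : C.gate a with
      | leaf L =>
        simp only [Gate.eval]
        refine leaf_update L i (fun hs => ha (.leaf ?_)) e z
        rw [hg]
        exact hs
      | lin S a c => rfl
      | mul a b => rfl
      | max S => rfl
      | sym S k => rfl

theorem rd_pos {C : Net ι D w q} {i : ι} {a : C.Node} (h : C.Dep i a) : 1 ≤ C.rd i a := by
  classical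
  unfold rd
  cases h with
  | leaf h => rw [if_pos h]; omega
  | wire hb hd =>
    have : 0 < ((C.gate a).inputs.filter (fun b => C.Dep i b)).card :=
      card_pos.2 ⟨_, mem_filter.2 ⟨hb, hd⟩⟩
    have h2 := Nat.zero_le (if (C.gate a).Sees i then 1 else 0)
    convert Nat.le_add_left_of_le (k := if (C.gate a).Sees i then 1 else 0) this using 1

section

variable (C : Net ι D w q) (i : ι)

open Classical in
/-- the nodes which depend on the item -/
noncomputable def deps : Finset C.Node := univ.filter (fun a => C.Dep i a)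

theorem mem_deps {a : C.Node} : a ∈ C.deps i ↔ C.Dep i a := by
  classical
  unfold deps
  rw [mem_filter]
  exact ⟨fun h => h.2, fun h => ⟨mem_univ _, h⟩⟩

open Classical in
/-- the inputs which depend on the item -/
noncomputable def din (a : C.Node) : Finset C.Node :=
  (C.gate a).inputs.filter (fun b => C.Dep i b)

theorem card_din_le (a : C.Node) : (C.din i a).card ≤ C.rd i a := by
  unfold din rd
  exact Nat.le_add_left _ _

/-- the parameters -/
noncomputable def ix : Finset (Σ _ : C.Node, ℕ) :=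
  (C.deps i).sigma (fun a => range (C.rd i a + 1))

theorem mem_ix {a : C.Node} {j : ℕ} :
    (⟨a, j⟩ : Σ _ : C.Node, ℕ) ∈ C.ix i ↔ C.Dep i a ∧ j < C.rd i a + 1 := by
  unfold ix
  rw [mem_sigma, mem_deps, mem_range]

theorem sum_deps_le (f : C.Node → ℕ) (hf : ∀ a, C.Dep i a → f a ≤ 2 * C.rd i a) :
    ∑ a ∈ C.deps i, f a ≤ 2 * C.traffic i := by
  calc ∑ a ∈ C.deps i, f a ≤ ∑ a ∈ C.deps i, 2 * C.rd i a :=
        sum_le_sum fun a ha => hf a ((C.mem_deps i).1 ha)
    _ ≤ ∑ a, 2 * C.rd i a := sum_le_sum_of_subset (subset_univ _)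
    _ = _ := by
        rw [← mul_sum]
        rfl

theorem card_ix_le : (C.ix i).card ≤ 2 * C.traffic i := by
  unfold ix
  rw [card_sigma]
  refine C.sum_deps_le i _ fun a ha => ?_
  rw [card_range]
  have := rd_pos ha
  omega

/-- the inputs which are compared -/
noncomputable def opts (a : C.Node) : Finset (Option C.Node) :=
  insert none ((C.din i a).map Function.Embedding.some)

/-- the tests -/
noncomputable def jx : Finset (Σ _ : C.Node, Option C.Node × Option C.Node) :=
  (C.deps i).sigma (fun a => C.opts i a ×ˢ C.opts i a)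

theorem mem_jx {a : C.Node} {o o' : Option C.Node} :
    (⟨a, (o, o')⟩ : Σ _ : C.Node, Option C.Node × Option C.Node) ∈ C.jx i ↔
      C.Dep i a ∧ o ∈ C.opts i a ∧ o' ∈ C.opts i a := by
  unfold jx
  rw [mem_sigma, mem_deps, mem_product]

theorem card_jx_le : (C.jx i).card ≤ 4 * C.traffic i ^ 2 := by
  unfold jx
  rw [card_sigma]
  have h1 : ∀ a, C.Dep i a → (C.opts i a).card ≤ 2 * C.rd i a := by
    intro a ha
    have h2 : (C.opts i a).card ≤ (C.din i a).card + 1 := by
      unfold opts
      refine (card_insert_le _ _).trans ?_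
      rw [card_map]
    have h3 := C.card_din_le i a
    have h4 := rd_pos ha
    omega
  have h2 : ∀ a, C.Dep i a → (C.opts i a).card ≤ 2 * C.traffic i := fun a ha =>
    (h1 a ha).trans (Nat.mul_le_mul_left _ (single_le_sum (f := fun a => C.rd i a)
      (fun _ _ => Nat.zero_le _) (mem_univ a)))
  calc ∑ a ∈ C.deps i, (C.opts i a ×ˢ C.opts i a).card
      ≤ ∑ a ∈ C.deps i, (C.opts i a).card * (2 * C.traffic i) := by
        refine sum_le_sum fun a ha => ?_
        rw [card_product]
        exact Nat.mul_le_mul_left _ (h2 a ((C.mem_deps i).1 ha))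
    _ = (∑ a ∈ C.deps i, (C.opts i a).card) * (2 * C.traffic i) := by rw [sum_mul]
    _ ≤ (2 * C.traffic i) * (2 * C.traffic i) :=
        Nat.mul_le_mul_right _ (C.sum_deps_le i _ h1)
    _ = _ := by ring

/-- a parameter of the node `a` -/
noncomputable def par (θ : C.ix i → ℝ) (a : C.Node) (j : ℕ) : ℝ :=
  if h : (⟨a, j⟩ : Σ _ : C.Node, ℕ) ∈ C.ix i then θ ⟨_, h⟩ else 0

/-- a parameter of the node `a` as a polynomial -/
noncomputable def pX (a : C.Node) (j : ℕ) : MvPolynomial (C.ix i) ℝ :=
  if h : (⟨a, j⟩ : Σ _ : C.Node, ℕ) ∈ C.ix i then X ⟨_, h⟩ else 0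

theorem eval_pX (θ : C.ix i → ℝ) (a : C.Node) (j : ℕ) :
    MvPolynomial.eval θ (C.pX i a j) = C.par i θ a j := by
  unfold pX par
  split_ifs with h
  · exact eval_X _
  · exact map_zero _

theorem degree_pX (a : C.Node) (j : ℕ) : (C.pX i a j).totalDegree ≤ 1 := by
  unfold pX
  split_ifs with h
  · exact (totalDegree_X _).le
  · rw [totalDegree_zero]
    omega

variable {Y : Type}

open Classical in
/-- what is known of an input -/
noncomputable def opt (b : C.Node) : Option C.Node := if C.Dep i b then some b else none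

/-- the value of an input as a polynomial -/
noncomputable def inp (Q : C.Node → Y → MvPolynomial (C.ix i) ℝ) (a : C.Node) (u : Y) :
    Option C.Node → MvPolynomial (C.ix i) ℝ
  | some b => Q b u
  | none => match C.gate a with
    | .max _ => C.pX i a 0
    | _ => 0

open Classical in
/-- the results of the tests -/
noncomputable def sg (Q : C.Node → Y → MvPolynomial (C.ix i) ℝ) (θ : C.ix i → ℝ) (a : C.Node)
    (o o' : Option C.Node) (u : Y) : SignType :=
  if (⟨a, (o, o')⟩ : Σ _ : C.Node, Option C.Node × Option C.Node) ∈ C.jx i then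
    SignType.sign (MvPolynomial.eval θ (C.inp i Q a u o - C.inp i Q a u o')) else 0

open Classical in
/-- the value of the node `a` as a polynomial -/
noncomputable def res (l : C.Node → Y → ℝ) (Q : C.Node → Y → MvPolynomial (C.ix i) ℝ)
    (σ : C.Node → Option C.Node → Option C.Node → Y → SignType) (a : C.Node) (u : Y) :
    MvPolynomial (C.ix i) ℝ :=
  match C.gate a with
  | .leaf _ => MvPolynomial.C (l a u)
  | .lin S c _ => C.pX i a 0 + ∑ b ∈ S.filter (fun b => C.Dep i b), MvPolynomial.C (c b) * Q b u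
  | .mul b c => (if C.Dep i b then Q b u else C.pX i a 0) *
      (if C.Dep i c then Q c u else C.pX i a 0)
  | .max S => if h : ∃ b ∈ S, ∀ b' ∈ S, σ a (C.opt i b') (C.opt i b) u ≠ 1 then
      C.inp i Q a u (C.opt i h.choose) else 0
  | .sym S _ => C.pX i a
      ((S.filter (fun b => C.Dep i b)).filter (fun b => σ a (some b) none u = 1)).card

open Classical in
/-- The values `v` of the nodes satisfy the equations of the network, with the parameters `θ` and
the values `l` of the leaves. -/
def Cons (l : C.Node → Y → ℝ) (θ : C.ix i → ℝ) (v : C.Node → Y → ℝ) : Prop :=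
  ∀ a, C.Dep i a → ∀ u, v a u = match C.gate a with
    | .leaf _ => l a u
    | .lin S c _ => C.par i θ a 0 + ∑ b ∈ S.filter (fun b => C.Dep i b), c b * v b u
    | .mul b c => (if C.Dep i b then v b u else C.par i θ a 0) *
        (if C.Dep i c then v c u else C.par i θ a 0)
    | .max S => if h : S.Nonempty then
        S.sup' h (fun b => if C.Dep i b then v b u else C.par i θ a 0) else 0
    | .sym S _ => C.par i θ a
        ((S.filter (fun b => C.Dep i b)).filter (fun b => 0 < v b u)).card

theorem opt_mem {a b : C.Node} (hb : b ∈ (C.gate a).inputs) : C.opt i b ∈ C.opts i a := by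
  classical
  unfold opt opts
  rw [mem_insert]
  by_cases h : C.Dep i b
  · rw [if_pos h]
    refine Or.inr (mem_map.2 ⟨b, ?_, rfl⟩)
    unfold din
    exact mem_filter.2 ⟨hb, h⟩
  · rw [if_neg h]
    exact Or.inl rfl

theorem some_mem {a b : C.Node} (hb : b ∈ (C.gate a).inputs) (h : C.Dep i b) :
    some b ∈ C.opts i a := by
  have := C.opt_mem i hb
  unfold opt at this
  rwa [if_pos h] at this

theorem none_mem (a : C.Node) : none ∈ C.opts i a := mem_insert_self _ _

/-- One step. -/
theorem res_eq (l : C.Node → Y → ℝ) (θ : C.ix i → ℝ) (v : C.Node → Y → ℝ)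
    (hc : C.Cons i l θ v) (Q : C.Node → Y → MvPolynomial (C.ix i) ℝ) (a : C.Node)
    (ha : C.Dep i a) (hQ : ∀ b ∈ (C.gate a).inputs, C.Dep i b → ∀ u, v b u = MvPolynomial.eval θ (Q b u))
    (u : Y) : v a u = MvPolynomial.eval θ (C.res i l Q (C.sg i Q θ) a u) := by
  classical
  rw [hc a ha u]
  unfold res
  cases hg : C.gate a with
  | leaf L => simp
  | lin S c e =>
    simp only [map_add, map_sum, map_mul, eval_C, C.eval_pX]
    congr 1
    refine sum_congr rfl fun b hb => ?_
    rw [mem_filter] at hb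
    rw [hQ b (by rw [hg]; exact hb.1) hb.2 u]
  | mul b c =>
    simp only [map_mul]
    have h1 : ∀ b', b' ∈ (C.gate a).inputs → (if C.Dep i b' then v b' u else C.par i θ a 0) =
        MvPolynomial.eval θ (if C.Dep i b' then Q b' u else C.pX i a 0) := by
      intro b' hb'
      split_ifs with h
      · exact hQ b' hb' h u
      · rw [C.eval_pX]
    rw [h1 b (by rw [hg]; simp [Gate.inputs]), h1 c (by rw [hg]; simp [Gate.inputs])]
  | max S =>
    simp only
    have hin : ∀ b ∈ S, b ∈ (C.gate a).inputs := fun b hb => by rw [hg]; exact hb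
    obtain ⟨g, hgd⟩ : ∃ g : C.Node → ℝ, g = fun b => if C.Dep i b then v b u else
      C.par i θ a 0 := ⟨_, rfl⟩
    rw [← hgd]
    have h1 : ∀ b ∈ S, MvPolynomial.eval θ (C.inp i Q a u (C.opt i b)) = g b := by
      intro b hb
      rw [hgd]
      unfold opt
      by_cases h : C.Dep i b
      · simp only [if_pos h, inp]
        exact (hQ b (hin b hb) h u).symm
      · simp only [if_neg h, inp, hg]
        exact C.eval_pX i θ a 0
    have h2 : ∀ b ∈ S, ∀ b' ∈ S, (C.sg i Q θ a (C.opt i b') (C.opt i b) u ≠ 1 ↔ g b' ≤ g b) := by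
      intro b hb b' hb'
      unfold sg
      rw [if_pos ((C.mem_jx i).2 ⟨ha, C.opt_mem i (hin b' hb'), C.opt_mem i (hin b hb)⟩),
        map_sub, h1 b hb, h1 b' hb', ne_eq, sign_eq_one_iff]
      constructor
      · intro h
        linarith [not_lt.1 h]
      · intro h
        exact not_lt.2 (by linarith)
    have hS : S.Nonempty := by
      cases ha with
      | leaf h =>
        rw [hg] at h
        exact absurd h (by simp [Gate.Sees])
      | wire hb hd =>
        rw [hg] at hb
        exact ⟨_, hb⟩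
    rw [dif_pos hS]
    have hex : ∃ b ∈ S, ∀ b' ∈ S, C.sg i Q θ a (C.opt i b') (C.opt i b) u ≠ 1 := by
      obtain ⟨b, hb, hmax⟩ := S.exists_max_image g hS
      exact ⟨b, hb, fun b' hb' => (h2 b hb b' hb').2 (hmax b' hb')⟩
    rw [dif_pos hex]
    obtain ⟨hb, hmax⟩ := hex.choose_spec
    rw [h1 _ hb]
    refine le_antisymm (sup'_le hS _ fun b' hb' => (h2 _ hb b' hb').1 (hmax b' hb'))
      (le_sup' g hb)
  | sym S k =>
    simp only
    rw [C.eval_pX]
    congr 2
    refine filter_congr fun b hb => ?_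
    rw [mem_filter] at hb
    have hin : b ∈ (C.gate a).inputs := by rw [hg]; exact hb.1
    unfold sg
    rw [if_pos ((C.mem_jx i).2 ⟨ha, C.some_mem i hin hb.2, C.none_mem i a⟩), map_sub,
      sign_eq_one_iff]
    simp only [inp, hg, map_zero, sub_zero]
    rw [hQ b hin hb.2 u]

/-- The degrees. -/
theorem degree_res (l : C.Node → Y → ℝ) (Q : C.Node → Y → MvPolynomial (C.ix i) ℝ)
    (σ : C.Node → Option C.Node → Option C.Node → Y → SignType) (t : ℕ)
    (hQ : ∀ a u, (Q a u).totalDegree ≤ 2 ^ t) (a : C.Node) (u : Y) :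
    (C.res i l Q σ a u).totalDegree ≤ 2 ^ (t + 1) := by
  classical
  have h1 : 1 ≤ 2 ^ t := Nat.one_le_two_pow
  have h2 : 2 ^ (t + 1) = 2 ^ t + 2 ^ t := by ring
  have hX : ∀ j, (C.pX i a j).totalDegree ≤ 2 ^ t := fun j => (C.degree_pX i a j).trans h1
  unfold res
  cases hg : C.gate a with
  | leaf L =>
    simp only [totalDegree_C]
    omega
  | lin S c e =>
    simp only
    refine (totalDegree_add _ _).trans (max_le ((hX 0).trans (by omega)) ?_)
    refine (totalDegree_finsetSum_le (d := 2 ^ t) fun b _ => ?_).trans (by omega)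
    refine (totalDegree_mul _ _).trans ?_
    rw [totalDegree_C, zero_add]
    exact hQ b u
  | mul b c =>
    simp only
    refine (totalDegree_mul _ _).trans ?_
    have h3 : ∀ b', (if C.Dep i b' then Q b' u else C.pX i a 0).totalDegree ≤ 2 ^ t := by
      intro b'
      split_ifs
      · exact hQ b' u
      · exact hX 0
    have := h3 b
    have := h3 c
    omega
  | max S =>
    simp only
    split_ifs with h
    · unfold opt
      split_ifs
      · simp only [inp]
        exact (hQ _ u).trans (by omega)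
      · simp only [inp, hg]
        exact (hX 0).trans (by omega)
    · rw [totalDegree_zero]
      omega
  | sym S k =>
    simp only
    exact (hX _).trans (by omega)

/-- The degrees of the tests. -/
theorem degree_inp (Q : C.Node → Y → MvPolynomial (C.ix i) ℝ) (t : ℕ)
    (hQ : ∀ a u, (Q a u).totalDegree ≤ 2 ^ t) (a : C.Node) (u : Y) (o : Option C.Node) :
    (C.inp i Q a u o).totalDegree ≤ 2 ^ t := by
  have h1 : 1 ≤ 2 ^ t := Nat.one_le_two_pow
  cases o with
  | some b => exact hQ b u
  | none =>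
    simp only [inp]
    split
    · exact (C.degree_pX i a 0).trans h1
    · rw [totalDegree_zero]
      omega

/-- The number of the results of the tests. -/
theorem card_sg (Q : C.Node → Y → MvPolynomial (C.ix i) ℝ) [Fintype Y] (t d s M : ℕ)
    (ht : t ≤ d) (hs : C.traffic i ≤ s) (hM : 16 * Fintype.card Y * s ^ 2 + 2 ≤ M)
    (hQ : ∀ a u, (Q a u).totalDegree ≤ 2 ^ t) :
    ∃ S : Finset (C.Node → Option C.Node → Option C.Node → Y → SignType),
      S.card ≤ (M * 2 ^ d) ^ (2 * C.traffic i) ∧ ∀ θ, C.sg i Q θ ∈ S := by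
  classical
  obtain ⟨f, hf⟩ : ∃ f : C.jx i × Y → MvPolynomial (C.ix i) ℝ, f = fun p =>
    C.inp i Q p.1.1.1 p.2 p.1.1.2.1 - C.inp i Q p.1.1.1 p.2 p.1.1.2.2 := ⟨_, rfl⟩
  have h1 := Pool.Agent.Helper448.Warren.ncard_sign_patterns_le f (2 ^ t) (fun p => by
    rw [hf]
    refine (totalDegree_sub _ _).trans (max_le ?_ ?_)
    · exact C.degree_inp i Q t hQ _ _ _
    · exact C.degree_inp i Q t hQ _ _ _)
  obtain ⟨g, hg⟩ : ∃ g : (C.jx i × Y → SignType) → C.Node → Option C.Node → Option C.Node →
    Y → SignType, g = fun σ a o o' u =>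
      if h : (⟨a, (o, o')⟩ : Σ _ : C.Node, Option C.Node × Option C.Node) ∈ C.jx i then
        σ (⟨_, h⟩, u) else 0 := ⟨_, rfl⟩
  refine ⟨(Set.toFinite (Set.range (fun x : C.ix i → ℝ => fun p =>
    SignType.sign (MvPolynomial.eval x (f p))))).toFinset.image g, ?_, fun θ => ?_⟩
  · refine card_image_le.trans ?_
    rw [← Set.ncard_eq_toFinset_card]
    refine h1.trans ?_
    have h2 : (4 * Fintype.card (C.jx i × Y) * 2 ^ t + 2) ≤ M * 2 ^ d := by
      rw [Fintype.card_prod, Fintype.card_coe]
      have h3 : (C.jx i).card ≤ 4 * s ^ 2 :=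
        (C.card_jx_le i).trans (Nat.mul_le_mul_left _ (Nat.pow_le_pow_left hs 2))
      have h4 : 2 ^ t ≤ 2 ^ d := Nat.pow_le_pow_right (by norm_num) ht
      have h5 : 1 ≤ 2 ^ d := Nat.one_le_two_pow
      calc 4 * ((C.jx i).card * Fintype.card Y) * 2 ^ t + 2
          ≤ 4 * ((4 * s ^ 2) * Fintype.card Y) * 2 ^ d + 2 * 2 ^ d := by
            apply Nat.add_le_add
            · exact Nat.mul_le_mul (Nat.mul_le_mul_left _ (Nat.mul_le_mul_right _ h3)) h4
            · omega
        _ = (16 * Fintype.card Y * s ^ 2 + 2) * 2 ^ d := by ring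
        _ ≤ M * 2 ^ d := Nat.mul_le_mul_right _ hM
    have h6 : 1 ≤ M * 2 ^ d := Nat.mul_pos (by omega) (by positivity)
    calc (4 * Fintype.card (C.jx i × Y) * 2 ^ t + 2) ^ Fintype.card (C.ix i)
        ≤ (M * 2 ^ d) ^ Fintype.card (C.ix i) := Nat.pow_le_pow_left h2 _
      _ ≤ _ := by
          apply Nat.pow_le_pow_right h6
          rw [Fintype.card_coe]
          exact C.card_ix_le i
  · rw [mem_image]
    refine ⟨fun p => SignType.sign (MvPolynomial.eval θ (f p)), ?_, ?_⟩
    · rw [Set.Finite.mem_toFinset]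
      exact ⟨θ, rfl⟩
    · funext a o o' u
      rw [hg, hf]
      unfold sg
      by_cases h : (⟨a, (o, o')⟩ : Σ _ : C.Node, Option C.Node × Option C.Node) ∈ C.jx i
      · simp only [dif_pos h, if_pos h]
      · simp only [dif_neg h, if_neg h]

open Classical in
/-- The nodes of small level are given by few families of polynomials. -/
theorem levels [Fintype Y] (l : C.Node → Y → ℝ) (d s M : ℕ) (hs : C.traffic i ≤ s)
    (hM : 16 * Fintype.card Y * s ^ 2 + 2 ≤ M) :
    ∀ t ≤ d + 1, ∃ 𝒬 : Finset (C.Node → Y → MvPolynomial (C.ix i) ℝ),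
      𝒬.card ≤ ((M * 2 ^ d) ^ (2 * C.traffic i)) ^ t ∧
      (∀ Q ∈ 𝒬, ∀ a u, (Q a u).totalDegree ≤ 2 ^ t) ∧
      ∀ θ v, C.Cons i l θ v → ∃ Q ∈ 𝒬, ∀ a, C.Dep i a → C.lev a < t → ∀ u,
        v a u = MvPolynomial.eval θ (Q a u)
  | 0, _ => by
      refine ⟨{fun _ _ => 0}, by simp, fun Q hQ a u => ?_, fun θ v _ =>
        ⟨_, mem_singleton_self _, fun a _ h => absurd h (Nat.not_lt_zero _)⟩⟩
      rw [mem_singleton] at hQ
      rw [hQ]
      simp
  | t + 1, ht => by
      obtain ⟨𝒬, h1, h2, h3⟩ := levels l d s M hs hM t (by omega)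
      have h4 : ∀ Q : 𝒬, ∃ S : Finset (C.Node → Option C.Node → Option C.Node → Y → SignType),
          S.card ≤ (M * 2 ^ d) ^ (2 * C.traffic i) ∧ ∀ θ, C.sg i Q.1 θ ∈ S := fun Q =>
        C.card_sg i Q.1 t d s M (by omega) hs hM (h2 Q.1 Q.2)
      choose S hS1 hS2 using h4
      refine ⟨univ.biUnion (fun Q : 𝒬 => (S Q).image (C.res i l Q.1)), ?_, ?_, ?_⟩
      · refine card_biUnion_le.trans ?_
        calc ∑ Q : 𝒬, ((S Q).image (C.res i l Q.1)).card
            ≤ ∑ _Q : 𝒬, (M * 2 ^ d) ^ (2 * C.traffic i) :=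
              sum_le_sum fun Q _ => card_image_le.trans (hS1 Q)
          _ = 𝒬.card * (M * 2 ^ d) ^ (2 * C.traffic i) := by
              rw [sum_const, card_univ, Fintype.card_coe, smul_eq_mul]
          _ ≤ _ := by
              rw [pow_succ]
              exact Nat.mul_le_mul_right _ h1
      · intro Q' hQ' a u
        rw [mem_biUnion] at hQ'
        obtain ⟨Q, -, hQ⟩ := hQ'
        rw [mem_image] at hQ
        obtain ⟨σ, -, rfl⟩ := hQ
        exact C.degree_res i l Q.1 σ t (h2 Q.1 Q.2) a u
      · intro θ v hv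
        obtain ⟨Q, hQ, hQv⟩ := h3 θ v hv
        refine ⟨C.res i l Q (C.sg i Q θ), mem_biUnion.2 ⟨⟨Q, hQ⟩, mem_univ _,
          mem_image_of_mem _ (hS2 ⟨Q, hQ⟩ θ)⟩, fun a ha hl u => ?_⟩
        exact C.res_eq i l θ v hv Q a ha (fun b hb hd u =>
          hQv b hd (by have := C.lt a b hb; omega) u) u

end

end Net

end Run7.h413.DN
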