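import Pool.Agent.N452.TF.Defs

set_option autoImplicit false

/-! # Networks whose gates share real values

The nodes of a network carry real numbers (of unlimited precision), and the value of a node may be
used by any number of other nodes. The gates are weighted sums and maxima of any number of inputs,
products of two inputs, and symmetric threshold gates. So deep networks with rectified linear
units (`max (x, 0)`), with maxima, minima, thresholds and products are networks of this kind. -/

namespace Run7.h413.DN

open Finset
open Pool.Agent.N452.TF (Leaf)

/-- Gates with inputs in `N`: leaves (arbitrary real functions of one item of the input, or of `w`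
words with `q` values, each of which is an arbitrary function of one item), weighted sums, products
of two values, maxima, and gates `sym` whose value is an arbitrary function of the number of the
positive inputs. -/
inductive Gate (ι : Type) (D : ι → Type) (w q : ℕ) (N : Type) : Type
  | leaf : Leaf ι D w q ℝ → Gate ι D w q N
  | lin : Finset N → (N → ℝ) → ℝ → Gate ι D w q N
  | mul : N → N → Gate ι D w q N
  | max : Finset N → Gate ι D w q N
  | sym : Finset N → (ℕ → ℝ) → Gate ι D w q N

namespace Gate

variable {ι : Type} {D : ι → Type} {w q : ℕ} {N : Type}

/-- The value of the gate on the input `x`, if the nodes have the values `v`. -/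
noncomputable def eval : Gate ι D w q N → (∀ i, D i) → (N → ℝ) → ℝ
  | leaf L, x, _ => L.val x
  | lin S a c, _, v => c + ∑ b ∈ S, a b * v b
  | mul a b, _, v => v a * v b
  | max S, _, v => if h : S.Nonempty then S.sup' h v else 0
  | sym S h, _, v => h (S.filter (fun b => 0 < v b)).card

/-- The inputs of the gate. -/
def inputs [DecidableEq N] : Gate ι D w q N → Finset N
  | leaf _ => ∅
  | lin S _ _ => S
  | mul a b => {a, b}
  | max S => S
  | sym S _ => S

/-- Is the gate a leaf which sees the item `i`? -/
def Sees (i : ι) : Gate ι D w q N → Prop
  | leaf L => L.Sees {i}
  | lin _ _ _ => False
  | mul _ _ => False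
  | max _ => False
  | sym _ _ => False

end Gate

/-- Networks: every node has a gate, whose inputs are nodes of smaller level. -/
structure Net (ι : Type) (D : ι → Type) (w q : ℕ) where
  /-- the nodes -/
  Node : Type
  fin : Fintype Node
  dec : DecidableEq Node
  /-- the gates -/
  gate : Node → Gate ι D w q Node
  /-- the levels -/
  lev : Node → ℕ
  lt : ∀ a, ∀ b ∈ (gate a).inputs, lev b < lev a
  /-- the output node -/
  out : Node

attribute [instance] Net.fin Net.dec

namespace Net

variable {ι : Type} {D : ι → Type} {w q : ℕ}

/-- The value of the node `a` on the input `x` (all inputs of its gate have smaller levels). -/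
noncomputable def val (C : Net ι D w q) (x : ∀ i, D i) (a : C.Node) : ℝ :=
  (C.gate a).eval x (fun b => if _ : C.lev b < C.lev a then C.val x b else 0)
termination_by C.lev a

/-- The network accepts the input if the value of the output node is positive. -/
noncomputable def eval (C : Net ι D w q) (x : ∀ i, D i) : Bool := decide (0 < C.val x C.out)

/-- The nodes which depend on the item `i`: the leaves which see it, and the nodes which have an
input that depends on it. -/
inductive Dep (C : Net ι D w q) (i : ι) : C.Node → Prop
  | leaf {a : C.Node} : (C.gate a).Sees i → Dep C i a
  | wire {a b : C.Node} : b ∈ (C.gate a).inputs → Dep C i b → Dep C i a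

/-- The depth is at most `d`: all levels are at most `d`. -/
def DepthLE (C : Net ι D w q) (d : ℕ) : Prop := ∀ a, C.lev a ≤ d

open Classical in
/-- The readings of the item `i` (is the gate of `a` a leaf which sees it?) plus the wires from nodes
which depend on the item `i` to the node `a`. -/
noncomputable def rd (C : Net ι D w q) (i : ι) (a : C.Node) : ℕ :=
  (if (C.gate a).Sees i then 1 else 0) + ((C.gate a).inputs.filter (fun b => C.Dep i b)).card

/-- The number of the leaves which see the item `i`, plus the number of the wires which leave a node
that depends on the item `i`. -/
noncomputable def traffic (C : Net ι D w q) (i : ι) : ℕ := ∑ a, C.rd i a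

/-- The cost: the sum of the numbers `traffic` for the items in `I`. In other words: every wire is
charged with the number of the items in `I` on which its source depends, and every leaf with the
number of the items in `I` which it sees. -/
noncomputable def cost (C : Net ι D w q) (I : Finset ι) : ℕ := ∑ i ∈ I, C.traffic i

end Net

end Run7.h413.DN
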