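import Pool.Agent.Run7.h413.DN.Core

set_option autoImplicit false

/-! # Few subfunctions of networks whose gates share real values: the count -/

namespace Run7.h413.DN

open Finset MvPolynomial
open Pool.Agent.N452.TF (Leaf ovr ovr_of_mem ovr_of_not)

variable {ι : Type} {D : ι → Type} {w q : ℕ}

namespace Net

variable [DecidableEq ι] (C : Net ι D w q) (i : ι) {Y : Type}

open Classical in
/-- the values of the leaves -/
noncomputable def lf (y : Y → D i) (z : ∀ i, D i) (a : C.Node) (u : Y) : ℝ :=
  match C.gate a with
  | .leaf L => if L.Sees {i} then L.val (Function.update z i (y u)) else 0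
  | _ => 0

theorem lf_family (hq : 1 ≤ q) (y : Y → D i) (z0 : ∀ i, D i) (a : C.Node) :
    ∃ F : Finset (Y → ℝ), F.card ≤ (q ^ (w - 1)) ^ C.rd i a ∧ ∀ z, C.lf i y z a ∈ F := by
  classical
  have hq1 : 1 ≤ q ^ (w - 1) := Nat.one_le_pow _ _ hq
  by_cases hL : ∃ L, C.gate a = .leaf L ∧ L.Sees {i}
  · obtain ⟨L, hg, hs⟩ := hL
    obtain ⟨κ, _, f, hκ, hf⟩ := L.family hq {i} (fun u => Function.update z0 i (y u)) hs
    refine ⟨univ.image f, ?_, fun z => ?_⟩
    · refine card_image_le.trans ?_
      rw [card_univ]
      refine hκ.trans ?_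
      have h1 : 1 ≤ C.rd i a := rd_pos (.leaf (by rw [hg]; exact hs))
      calc q ^ (w - 1) = (q ^ (w - 1)) ^ 1 := (pow_one _).symm
        _ ≤ _ := Nat.pow_le_pow_right hq1 h1
    · obtain ⟨k, hk⟩ := hf z
      rw [mem_image]
      refine ⟨k, mem_univ _, ?_⟩
      rw [← hk]
      funext u
      unfold lf
      rw [hg]
      simp only [if_pos hs]
      congr 1
      funext b
      by_cases hb : b ∈ ({i} : Set ι)
      · rw [ovr_of_mem hb]
        have hb' : b = i := hb
        subst hb'
        rw [Function.update_self, Function.update_self]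
      · rw [ovr_of_not hb]
        exact (Function.update_of_ne hb _ _).symm
  · refine ⟨{fun _ => 0}, ?_, fun z => ?_⟩
    · rw [card_singleton]
      exact Nat.one_le_pow _ _ hq1
    · rw [mem_singleton]
      funext u
      unfold lf
      cases hg : C.gate a with
      | leaf L =>
        simp only
        rw [if_neg fun hs => hL ⟨L, hg, hs⟩]
      | lin S c e => rfl
      | mul b c => rfl
      | max S => rfl
      | sym S k => rfl

open Classical in
/-- the parameters which belong to the other items -/
noncomputable def pv (z : ∀ i, D i) (a : C.Node) (j : ℕ) : ℝ :=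
  match C.gate a with
  | .leaf _ => 0
  | .lin S c e => e + ∑ b ∈ S.filter (fun b => ¬ C.Dep i b), c b * C.val z b
  | .mul b c => if C.Dep i b then C.val z c else C.val z b
  | .max S => if h : (S.filter (fun b => ¬ C.Dep i b)).Nonempty then
      (S.filter (fun b => ¬ C.Dep i b)).sup' h (C.val z) else 0
  | .sym S k => k (((S.filter (fun b => ¬ C.Dep i b)).filter (fun b => 0 < C.val z b)).card + j)

theorem par_eq (z : ∀ i, D i) {a : C.Node} {j : ℕ} (ha : C.Dep i a) (hj : j < C.rd i a + 1) :
    C.par i (fun p => C.pv i z p.1.1 p.1.2) a j = C.pv i z a j := by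
  unfold par
  rw [dif_pos ((C.mem_ix i).2 ⟨ha, hj⟩)]

theorem cons (y : Y → D i) (z : ∀ i, D i) :
    C.Cons i (C.lf i y z) (fun p => C.pv i z p.1.1 p.1.2)
      (fun a u => C.val (Function.update z i (y u)) a) := by
  classical
  intro a ha u
  obtain ⟨x, hx⟩ : ∃ x, x = Function.update z i (y u) := ⟨_, rfl⟩
  have hn : ∀ b, ¬ C.Dep i b → C.val x b = C.val z b := fun b hb => by
    rw [hx]
    exact val_of_not_dep C i (y u) z (C.lev b + 1) b (Nat.lt_succ_self _) hb
  have h0 : C.par i (fun p => C.pv i z p.1.1 p.1.2) a 0 = C.pv i z a 0 :=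
    C.par_eq i z ha (Nat.succ_pos _)
  simp only
  rw [← hx, val_eq]
  cases hg : C.gate a with
  | leaf L =>
    have hs : L.Sees {i} := by
      cases ha with
      | leaf h =>
        rw [hg] at h
        exact h
      | wire hb hd =>
        rw [hg] at hb
        exact absurd hb (by simp [Gate.inputs])
    simp only [Gate.eval, lf, hg, if_pos hs]
    rw [← hx]
  | lin S c e =>
    simp only [Gate.eval]
    rw [h0, ← sum_filter_add_sum_filter_not S (fun b => C.Dep i b)]
    simp only [pv, hg]
    have h1 : ∑ b ∈ S.filter (fun b => ¬ C.Dep i b), c b * C.val x b =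
        ∑ b ∈ S.filter (fun b => ¬ C.Dep i b), c b * C.val z b :=
      sum_congr rfl fun b hb => by rw [hn b (mem_filter.1 hb).2]
    rw [h1]
    ring
  | mul b c =>
    simp only [Gate.eval]
    rw [h0]
    simp only [pv, hg]
    by_cases hb : C.Dep i b
    · by_cases hc : C.Dep i c
      · simp only [if_pos hb, if_pos hc]
      · simp only [if_pos hb, if_neg hc]
        rw [hn c hc]
    · by_cases hc : C.Dep i c
      · simp only [if_neg hb, if_pos hc]
        rw [hn b hb]
      · exfalso
        cases ha with
        | leaf h =>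
          rw [hg] at h
          exact h
        | wire hb' hd =>
          rw [hg] at hb'
          simp only [Gate.inputs, mem_insert, mem_singleton] at hb'
          rcases hb' with rfl | rfl
          · exact hb hd
          · exact hc hd
  | max S =>
    simp only [Gate.eval]
    rw [h0]
    by_cases hS : S.Nonempty
    · rw [dif_pos hS, dif_pos hS]
      refine le_antisymm (sup'_le hS _ fun b hb => ?_) (sup'_le hS _ fun b hb => ?_)
      · refine le_trans ?_ (le_sup' (fun b => if C.Dep i b then C.val x b else C.pv i z a 0) hb)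
        by_cases h : C.Dep i b
        · simp only [if_pos h]
          exact le_rfl
        · simp only [if_neg h]
          rw [hn b h]
          have hb' : b ∈ S.filter (fun b => ¬ C.Dep i b) := mem_filter.2 ⟨hb, h⟩
          simp only [pv, hg]
          rw [dif_pos ⟨b, hb'⟩]
          exact le_sup' (C.val z) hb'
      · by_cases h : C.Dep i b
        · simp only [if_pos h]
          exact le_sup' (C.val x) hb
        · simp only [if_neg h]
          have hb' : b ∈ S.filter (fun b => ¬ C.Dep i b) := mem_filter.2 ⟨hb, h⟩
          simp only [pv, hg]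
          rw [dif_pos ⟨b, hb'⟩]
          refine sup'_le _ _ fun b' hb2 => ?_
          rw [mem_filter] at hb2
          rw [← hn b' hb2.2]
          exact le_sup' (C.val x) hb2.1
    · rw [dif_neg hS, dif_neg hS]
  | sym S k =>
    simp only [Gate.eval]
    have h1 : ((S.filter (fun b => C.Dep i b)).filter (fun b => 0 < C.val x b)).card <
        C.rd i a + 1 := by
      refine Nat.lt_succ_of_le ((card_filter_le _ _).trans ?_)
      have h2 := C.card_din_le i a
      unfold din at h2
      rw [hg] at h2
      exact h2
    rw [C.par_eq i z ha h1]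
    simp only [pv, hg]
    congr 1
    have h2 : S.filter (fun b => 0 < C.val x b) =
        (S.filter (fun b => ¬ C.Dep i b)).filter (fun b => 0 < C.val z b) ∪
        (S.filter (fun b => C.Dep i b)).filter (fun b => 0 < C.val x b) := by
      ext b
      simp only [mem_filter, mem_union]
      by_cases h : C.Dep i b
      · simp [h]
      · simp [h, hn b h]
    rw [h2, card_union_of_disjoint]
    rw [disjoint_left]
    intro b hb hb'
    simp only [mem_filter] at hb hb'
    exact hb.1.2 hb'.1.2

/-- Few subfunctions. -/
theorem subfunctions [Fintype Y] (y : Y → D i) (d s M E : ℕ) (hq : 1 ≤ q)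
    (hd : C.DepthLE d) (hs : C.traffic i ≤ s)
    (hM : 16 * Fintype.card Y * s ^ 2 + 2 ≤ M)
    (hE : E = q ^ (w - 1) * (M * 2 ^ d) ^ (2 * (d + 2))) :
    ∃ S : Finset (Y → Bool), S.card ≤ 2 * E ^ C.traffic i ∧
      ∀ z : (∀ i, D i), (fun u => C.eval (Function.update z i (y u))) ∈ S := by
  classical
  have hE1 : 1 ≤ E := by
    rw [hE]
    exact Nat.mul_pos (Nat.pow_pos hq) (Nat.pow_pos (Nat.mul_pos (by omega) (by positivity)))
  have hEt : 1 ≤ E ^ C.traffic i := Nat.one_le_pow _ _ hE1
  by_cases ho : C.Dep i C.out
  · by_cases hne : Nonempty (∀ i, D i)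
    · obtain ⟨z0⟩ := hne
      choose F hF1 hF2 using fun a => C.lf_family i hq y z0 a
      have h1 : ∀ l : C.Node → Y → ℝ, ∃ S : Finset (Y → Bool),
          S.card ≤ (M * 2 ^ d) ^ (2 * (d + 2) * C.traffic i) ∧
          ∀ θ v, C.Cons i l θ v → (fun u => decide (0 < v C.out u)) ∈ S := by
        intro l
        obtain ⟨𝒬, hQ1, hQ2, hQ3⟩ := C.levels i l d s M hs hM (d + 1) le_rfl
        have hM1 : 1 ≤ M * 2 ^ d := Nat.mul_pos (by omega) (by positivity)
        have h2 : ∀ Q : 𝒬, (Set.range (fun x : C.ix i → ℝ => fun u =>
            SignType.sign (MvPolynomial.eval x (Q.1 C.out u)))).ncard ≤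
              (M * 2 ^ d) ^ (2 * C.traffic i) := by
          intro Q
          refine (Pool.Agent.Helper448.Warren.ncard_sign_patterns_le
            (fun u => Q.1 C.out u) (2 ^ (d + 1)) (fun u => hQ2 Q.1 Q.2 _ _)).trans ?_
          have h3 : 4 * Fintype.card Y * 2 ^ (d + 1) + 2 ≤ M * 2 ^ d := by
            have h4 : 1 ≤ s := (rd_pos ho).trans ((single_le_sum (f := fun a => C.rd i a)
              (fun _ _ => Nat.zero_le _) (mem_univ C.out)).trans hs)
            have h5 : 1 ≤ s ^ 2 := Nat.one_le_pow _ _ h4
            have h6 : 1 ≤ 2 ^ d := Nat.one_le_two_pow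
            calc 4 * Fintype.card Y * 2 ^ (d + 1) + 2
                ≤ 8 * Fintype.card Y * 2 ^ d + 2 * 2 ^ d := by
                  rw [pow_succ]
                  apply Nat.add_le_add
                  · exact le_of_eq (by ring)
                  · omega
              _ = (8 * Fintype.card Y * 1 + 2) * 2 ^ d := by ring
              _ ≤ (16 * Fintype.card Y * s ^ 2 + 2) * 2 ^ d := by
                  apply Nat.mul_le_mul_right
                  apply Nat.add_le_add_right
                  exact Nat.mul_le_mul (Nat.mul_le_mul_right _ (by norm_num)) h5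
              _ ≤ M * 2 ^ d := Nat.mul_le_mul_right _ hM
          calc (4 * Fintype.card Y * 2 ^ (d + 1) + 2) ^ Fintype.card (C.ix i)
              ≤ (M * 2 ^ d) ^ Fintype.card (C.ix i) := Nat.pow_le_pow_left h3 _
            _ ≤ _ := by
                apply Nat.pow_le_pow_right hM1
                rw [Fintype.card_coe]
                exact C.card_ix_le i
        refine ⟨univ.biUnion (fun Q : 𝒬 => (Set.toFinite (Set.range (fun x : C.ix i → ℝ =>
          fun u => SignType.sign (MvPolynomial.eval x (Q.1 C.out u))))).toFinset.image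
            (fun σ u => decide (σ u = 1))), ?_, ?_⟩
        · refine card_biUnion_le.trans ?_
          calc ∑ Q : 𝒬, ((Set.toFinite (Set.range (fun x : C.ix i → ℝ =>
                fun u => SignType.sign (MvPolynomial.eval x (Q.1 C.out u))))).toFinset.image
                  (fun σ u => decide (σ u = 1))).card
              ≤ ∑ _Q : 𝒬, (M * 2 ^ d) ^ (2 * C.traffic i) := by
                refine sum_le_sum fun Q _ => card_image_le.trans ?_
                rw [← Set.ncard_eq_toFinset_card]
                exact h2 Q
            _ = 𝒬.card * (M * 2 ^ d) ^ (2 * C.traffic i) := by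
                rw [sum_const, card_univ, Fintype.card_coe, smul_eq_mul]
            _ ≤ ((M * 2 ^ d) ^ (2 * C.traffic i)) ^ (d + 1) * (M * 2 ^ d) ^ (2 * C.traffic i) :=
                Nat.mul_le_mul_right _ hQ1
            _ = _ := by
                rw [← pow_succ, ← pow_mul]
                congr 1
                ring
        · intro θ v hv
          obtain ⟨Q, hQ, hQv⟩ := hQ3 θ v hv
          rw [mem_biUnion]
          refine ⟨⟨Q, hQ⟩, mem_univ _, ?_⟩
          rw [mem_image]
          refine ⟨fun u => SignType.sign (MvPolynomial.eval θ (Q C.out u)), ?_, ?_⟩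
          · rw [Set.Finite.mem_toFinset]
            exact ⟨θ, rfl⟩
          · funext u
            rw [hQv C.out ho (Nat.lt_succ_of_le (hd C.out)) u]
            simp only [sign_eq_one_iff]
      choose S hS1 hS2 using h1
      refine ⟨(Fintype.piFinset F).biUnion S, ?_, fun z => ?_⟩
      · refine card_biUnion_le.trans ?_
        have h2 : (Fintype.piFinset F).card ≤ (q ^ (w - 1)) ^ C.traffic i := by
          rw [Fintype.card_piFinset]
          calc ∏ a, (F a).card ≤ ∏ a, (q ^ (w - 1)) ^ C.rd i a :=
                prod_le_prod' fun a _ => hF1 a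
            _ = _ := by
                rw [prod_pow_eq_pow_sum]
                rfl
        calc ∑ l ∈ Fintype.piFinset F, (S l).card
            ≤ ∑ _l ∈ Fintype.piFinset F, (M * 2 ^ d) ^ (2 * (d + 2) * C.traffic i) :=
              sum_le_sum fun l _ => hS1 l
          _ = (Fintype.piFinset F).card * (M * 2 ^ d) ^ (2 * (d + 2) * C.traffic i) := by
              rw [sum_const, smul_eq_mul]
          _ ≤ (q ^ (w - 1)) ^ C.traffic i * (M * 2 ^ d) ^ (2 * (d + 2) * C.traffic i) :=
              Nat.mul_le_mul_right _ h2
          _ = E ^ C.traffic i := by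
              rw [hE, mul_pow (q ^ (w - 1)), ← pow_mul (M * 2 ^ d)]
          _ ≤ _ := by omega
      · rw [mem_biUnion]
        refine ⟨C.lf i y z, ?_, ?_⟩
        · rw [Fintype.mem_piFinset]
          exact fun a => hF2 a z
        · exact hS2 (C.lf i y z) _ _ (C.cons i y z)
    · exact ⟨∅, by simp, fun z => absurd ⟨z⟩ hne⟩
  · refine ⟨(univ : Finset Bool).image (fun c => fun _ => c), ?_, fun z => ?_⟩
    · refine card_image_le.trans ?_
      rw [card_univ, Fintype.card_bool]
      omega
    · rw [mem_image]
      refine ⟨C.eval z, mem_univ _, ?_⟩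
      funext u
      unfold eval
      rw [val_of_not_dep C i (y u) z (C.lev C.out + 1) C.out (Nat.lt_succ_self _) ho]

end Net

end Run7.h413.DN
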